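import Pool.Agent.Q224.MD.Algo

/-!
# The misere domination game on paths and cycles

Definitions used in the statement: `closedNbhd`, `Legal`, `MoverWins`, `AliceWins` in
`Pool/Agent/Q224/MD/Defs.lean`; `adjMatrix` in `Pool/Agent/Q224/MD/Algo.lean`; polynomial time
(`PolyTime`, by Mathlib's Turing machines) and the coding `bits` of lists by bit strings in
`Pool/Agent/NPC/Defs.lean`.

The winner is determined for all paths and all cycles: Bob wins on the path with `n ≥ 1` vertices iff
`n = 1`, `n = 5` or `n` is congruent to `2` modulo `4`; Alice wins on the cycle with `n ≥ 3`
vertices iff `n = 4`, `n = 8`, or `n ≥ 13` and `n` is congruent to `1` modulo `4`.  In particular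
there is an algorithm which runs in polynomial time and finds the winner from the adjacency matrix
of any graph that is isomorphic to a path or a cycle.

Idea of the proof.  After the first move the undominated vertices form intervals which are separated
by at least two dominated vertices, and the game is the octal game 0.337 on the lengths of the
intervals.  Its misere play is not tame, but all previous player positions can be described
(`PP` in `Pool/Agent/Q224/MD/Oct.lean`).  Let the weight of a heap be
`0, 0, 1, 1, 0, 0, 1, 1, 2, 2, 3, 3, ...` for the sizes `0, 1, 2, ...`.  If all weights are `0` then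
the previous player wins iff the sum of the sizes is odd.  Otherwise the sum of the sizes has to be
even, and either the total weight is even and no heap dominates, or it is odd and one heap dominates
the others clearly; one small family of positions (a heap of size `9` and heaps of weight `0`) is an
exception.
-/

set_option autoImplicit false

namespace Pool.Agent.Results.MP_56c280_lc.PathsAndCycles

open SimpleGraph Pool.Agent.NPC Q224.MD

/-- **The misere domination game on paths and cycles.** (1) The winner on the path with `n`
vertices; (2) the winner on the cycle with `n` vertices; (3) a polynomial-time algorithm for all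
graphs isomorphic to a path or a cycle. -/
theorem result :
    (∀ n : ℕ, 1 ≤ n → (AliceWins (pathGraph n) ↔ n % 4 ≠ 2 ∧ n ≠ 1 ∧ n ≠ 5)) ∧
    (∀ n : ℕ, 3 ≤ n → (AliceWins (cycleGraph n) ↔ n = 4 ∨ n = 8 ∨ (13 ≤ n ∧ n % 4 = 1))) ∧
    ∃ F : List Bool → List Bool, PolyTime F ∧
      ∀ (n : ℕ) (G : SimpleGraph (Fin n)),
        (1 ≤ n ∧ Nonempty (G ≃g pathGraph n)) ∨ (3 ≤ n ∧ Nonempty (G ≃g cycleGraph n)) →
          (AliceWins G → F (bits (adjMatrix G)) = [true]) ∧
          (¬ AliceWins G → F (bits (adjMatrix G)) = [false]) :=
  ⟨fun n _ => path_winner n, fun _ hn => cycle_winner hn, exists_algorithm⟩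

end Pool.Agent.Results.MP_56c280_lc.PathsAndCycles
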